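import Pool.Agent.Lib.MP_57cceb_lc.Gaps

universe u

namespace Pool.Agent.Results.MP_57cceb_lc.DecomposableEverywhere

open Cardinal Pool.Agent.Lib.MP_57cceb_lc

/-- Let `|X|` be a strong limit cardinal and `U` a uniform ultrafilter over `X`. For every `η < |X|`
with `cf (Ch(U)) ≤ η` there is a `δ` with `η < δ ≤ 2 ^ (2 ^ η)⁺` such that `U` is
`δ`-decomposable. -/
theorem result (X : Type u) (U : Ultrafilter X) (hX : (#X).IsStrongLimit) (hU : IsUniform U)
    (η : Cardinal.{u}) (hη : (character U).ord.cof ≤ η) (hηX : η < #X) :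
    ∃ δ, η < δ ∧ δ ≤ 2 ^ Order.succ ((2 : Cardinal.{u}) ^ η) ∧ IsDecomposable U δ :=
  exists_decomposable_of_cof U hX hU η hη hηX

end Pool.Agent.Results.MP_57cceb_lc.DecomposableEverywhere
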