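import Pool.Agent.Lib.MP_57cceb_lc.RegularFull

universe u

namespace Pool.Agent.Results.MP_57cceb_lc.RegularUltrafilters

open Cardinal Pool.Agent.Lib.MP_57cceb_lc

/-- Let `λ = |Λ|` be a strong limit singular cardinal and `U` an ultrafilter over a set `X` that
is `(ρ, λ)`-regular for some `ρ < λ`. Then `2 ^ λ ≤ Ch(U)`. In particular, if `|X| = λ`, then
`Ch(U) = 2 ^ λ` and `cf (Ch(U)) > λ`. -/
theorem result (X Λ : Type u) (U : Ultrafilter X) (hΛ : (#Λ).IsStrongLimit)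
    (hsing : (#Λ).ord.cof < #Λ) (ρ : Cardinal.{u}) (hρ : ρ < #Λ)
    (hreg : IsRegularFor U ρ #Λ) :
    2 ^ #Λ ≤ character U ∧
      (#X = #Λ → character U = 2 ^ #Λ ∧ #Λ < (character U).ord.cof) := by
  have h1 := two_power_le_of_regular U hΛ hsing ρ hρ hreg
  refine ⟨h1, fun hX => ?_⟩
  have h2 : character U = 2 ^ #Λ := le_antisymm (hX ▸ character_le_two_power U) h1
  refine ⟨h2, ?_⟩
  rw [h2]
  exact Cardinal.lt_cof_power hΛ.aleph0_le Cardinal.one_lt_two

end Pool.Agent.Results.MP_57cceb_lc.RegularUltrafilters
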