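import Pool.Agent.Lib.MP_57cceb_lc.WeakSat

universe u

namespace Pool.Agent.Results.MP_57cceb_lc.SaturatedSmallFilters

open Cardinal Pool.Agent.Lib.MP_57cceb_lc

/-- Let `|X|` be strong limit singular and `U` a uniform ultrafilter over `X` with
`cf (Ch(U)) < |X|`. For every `ρ < |X|` there are `μ < |X|` and a set `𝒢` of fewer than `Ch(U)`
members of `U` such that, among any `μ` subsets of `X` of which every point lies in at most `ρ`,
one has its complement in the filter generated by `𝒢`. -/
theorem result (X : Type u) (U : Ultrafilter X) (hX : (#X).IsStrongLimit)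
    (hsing : (#X).ord.cof < #X) (hU : IsUniform U) (hcf : (character U).ord.cof < #X)
    (ρ : Cardinal.{u}) (hρ : ρ < #X) :
    ∃ μ < #X, ∃ 𝒢 : Set (Set X), (∀ A ∈ 𝒢, A ∈ U) ∧ #𝒢 < character U ∧
      ∀ (I : Type u) (N : I → Set X), #I = μ → (∀ x, #{i | x ∈ N i} ≤ ρ) →
        ∃ i, (N i)ᶜ ∈ Filter.generate 𝒢 :=
  exists_saturated U hX hsing hU hcf ρ hρ

end Pool.Agent.Results.MP_57cceb_lc.SaturatedSmallFilters
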