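import Pool.Agent.Lib.MP_57cceb_lc.Bounds

universe u

namespace Pool.Agent.Results.MP_57cceb_lc.SmallCofinality

open Cardinal Pool.Agent.Lib.MP_57cceb_lc
open scoped Ordinal

/-- Let `U` be a uniform ultrafilter over a set `X` of size `ℵ_ α` with `cf (Ch(U)) < |X|`. Then
some family of fewer than `cf (Ch(U))` members of `U` has its intersection outside `U` (so
`cf (Ch(U))` exceeds the completeness of `U`), and `Ch(U) ≥ ℵ_ (α + ω₁)`. -/
theorem result (X : Type u) (U : Ultrafilter X) (hU : IsUniform U) (α : Ordinal.{u})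
    (hα : #X = ℵ_ α) (hcf : (character U).ord.cof < #X) :
    (∃ 𝒮 : Set (Set X), (∀ A ∈ 𝒮, A ∈ U) ∧ #𝒮 < (character U).ord.cof ∧ ⋂₀ 𝒮 ∉ U) ∧
      ℵ_ (α + ω₁) ≤ character U :=
  ⟨exists_small_inter U (aleph0_le_character (hα ▸ Cardinal.aleph0_le_aleph α) hU),
    aleph_add_omega_one_le hU α hα hcf⟩

end Pool.Agent.Results.MP_57cceb_lc.SmallCofinality
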